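import Pool.Agent.H81.SC.Main

namespace Pool.Agent.H81.SC

open Polynomial

section

variable (E : Type) [Field E] [Algebra (RatFunc ℂ)[X] E] (p c₀ : ℂ) (m b : ℕ)

/-- the polynomial `f (p + τ ^ m)` with coefficients in `ℂ(c)` -/
noncomputable def up (u : ℂ[X]) : (RatFunc ℂ)[X] :=
  (u.comp (C p + X ^ m)).map (algebraMap ℂ (RatFunc ℂ))

/-- `c₀ + c τ` -/
noncomputable def yy : (RatFunc ℂ)[X] :=
  C (algebraMap ℂ (RatFunc ℂ) c₀) + C (algebraMap ℂ[X] (RatFunc ℂ) X) * X

/-- the substitution `s = p + τ ^ m`, `T = (c₀ + c τ) / τ ^ b` -/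
noncomputable def psi : ℂ[X][X] →+* E :=
  eval₂RingHom ((algebraMap (RatFunc ℂ)[X] E).comp
    ((mapRingHom (algebraMap ℂ (RatFunc ℂ))).comp (compRingHom (C p + X ^ m))))
    (algebraMap (RatFunc ℂ)[X] E (yy c₀) /
      algebraMap (RatFunc ℂ)[X] E X ^ b)

theorem aX_ne_zero [IsFractionRing (RatFunc ℂ)[X] E] : algebraMap (RatFunc ℂ)[X] E X ≠ 0 := by
  intro h
  have := (IsFractionRing.injective (RatFunc ℂ)[X] E)
    (h.trans (map_zero _).symm)
  exact X_ne_zero this

theorem psi_apply (f : ℂ[X][X]) : psi E p c₀ m b f = ∑ d ∈ Finset.range (f.natDegree + 1),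
    algebraMap (RatFunc ℂ)[X] E (up p m (f.coeff d)) *
      (algebraMap (RatFunc ℂ)[X] E (yy c₀) /
      algebraMap (RatFunc ℂ)[X] E X ^ b) ^ d := by
  rw [psi, coe_eval₂RingHom, eval₂_eq_sum_range]
  rfl

theorem psi_mul [IsFractionRing (RatFunc ℂ)[X] E] (f : ℂ[X][X]) : psi E p c₀ m b f *
    algebraMap (RatFunc ℂ)[X] E X ^ (b * f.natDegree) =
    algebraMap (RatFunc ℂ)[X] E
      (∑ d ∈ Finset.range (f.natDegree + 1), up p m (f.coeff d) * X ^ (b * (f.natDegree - d)) *
        yy c₀ ^ d) := by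
  rw [psi_apply, map_sum, Finset.sum_mul]
  apply Finset.sum_congr rfl
  intro d hd
  rw [Finset.mem_range] at hd
  obtain ⟨j, hj⟩ := Nat.exists_eq_add_of_le (show d ≤ f.natDegree by omega)
  have hX := aX_ne_zero E
  rw [map_mul, map_mul, map_pow, map_pow, hj, Nat.add_sub_cancel_left, mul_add, pow_add, div_pow,
    ← pow_mul]
  field_simp

/-- specialisation of `c` -/
theorem sum_zero {f : ℂ[X][X]}
    (h : ∑ d ∈ Finset.range (f.natDegree + 1), up p m (f.coeff d) *
      X ^ (b * (f.natDegree - d)) * yy c₀ ^ d = 0) (c₁ : ℂ) :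
    ∑ d ∈ Finset.range (f.natDegree + 1), (f.coeff d).comp (C p + X ^ m) *
      X ^ (b * (f.natDegree - d)) * (C c₀ + C c₁ * X) ^ d = 0 := by
  have h1 : (∑ d ∈ Finset.range (f.natDegree + 1), ((f.coeff d).comp (C p + X ^ m)).map C *
      X ^ (b * (f.natDegree - d)) * (C (C c₀) + C X * X) ^ d : ℂ[X][X]) = 0 := by
    apply map_injective (algebraMap ℂ[X] (RatFunc ℂ)) (IsFractionRing.injective _ _)
    rw [Polynomial.map_zero, Polynomial.map_sum, ← h]
    apply Finset.sum_congr rfl
    intro d _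
    rw [Polynomial.map_mul, Polynomial.map_mul, Polynomial.map_pow, Polynomial.map_pow,
      Polynomial.map_add, Polynomial.map_mul, map_X, map_C, map_C, Polynomial.map_map, up, yy]
    rfl
  have h2 := congrArg (map (evalRingHom c₁)) h1
  rw [Polynomial.map_zero, Polynomial.map_sum] at h2
  rw [← h2]
  apply Finset.sum_congr rfl
  intro d _
  rw [Polynomial.map_mul, Polynomial.map_mul, Polynomial.map_pow, Polynomial.map_pow,
    Polynomial.map_add, Polynomial.map_mul, map_X, map_C, map_C, Polynomial.map_map]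
  have h3 : (evalRingHom c₁).comp C = RingHom.id ℂ := by
    ext x
    simp
  rw [h3, Polynomial.map_id]
  simp

theorem comp_eq_zero {p : ℂ} {m : ℕ} (hm : 0 < m) {u : ℂ[X]} (h : u.comp (C p + X ^ m) = 0) :
    u = 0 := by
  rw [comp_eq_zero_iff] at h
  rcases h with h | ⟨-, h⟩
  · exact h
  · exfalso
    have h1 := congrArg (fun q => coeff q m) h
    simp only [coeff_add, coeff_C, coeff_X_pow, if_true, hm.ne', if_false, zero_add] at h1
    exact one_ne_zero h1

theorem psi_injective [IsFractionRing (RatFunc ℂ)[X] E] (hm : 0 < m) :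
    Function.Injective (psi E p c₀ m b) := by
  rw [injective_iff_map_eq_zero]
  intro f hf
  have h1 := psi_mul E p c₀ m b f
  rw [hf, zero_mul] at h1
  have h2 := (IsFractionRing.injective (RatFunc ℂ)[X] E)
    (h1.symm.trans (map_zero _).symm)
  have h3 := sum_zero p c₀ m b h2
  set Q : ℂ[X][X] := ∑ d ∈ Finset.range (f.natDegree + 1),
    monomial d ((f.coeff d).comp (C p + X ^ m) * X ^ (b * (f.natDegree - d))) with hQ
  have hQ0 : Q = 0 := by
    apply eq_zero_of_infinite_isRoot
    have hinj : Function.Injective (fun c₁ : ℂ => (C c₀ + C c₁ * X : ℂ[X])) := by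
      intro x y hxy
      have h4 := congrArg (fun q => coeff q 1) hxy
      simpa [coeff_C] using h4
    refine (Set.infinite_range_of_injective hinj).mono ?_
    rintro _ ⟨c₁, rfl⟩
    change eval _ Q = 0
    rw [hQ, eval_finsetSum, ← h3 c₁]
    apply Finset.sum_congr rfl
    intro d _
    rw [eval_monomial]
  ext1 d
  rw [coeff_zero]
  by_cases hd : d ≤ f.natDegree
  · have h4 := congrArg (fun q => coeff q d) hQ0
    simp only [hQ, finsetSum_coeff, coeff_monomial, coeff_zero] at h4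
    rw [Finset.sum_ite_eq', if_pos (Finset.mem_range.mpr (by omega))] at h4
    exact comp_eq_zero hm ((mul_eq_zero.mp h4).resolve_right (pow_ne_zero _ X_ne_zero))
  · exact coeff_eq_zero_of_natDegree_lt (by omega)

end

namespace Seif

variable {ι : Type} [Fintype ι] [DecidableEq ι] (S : Seif ι)
  (E : Type) [Field E] [Algebra (RatFunc ℂ)[X] E]

/-- the substitution at the distinguished point -/
noncomputable def sub (c₀ : ℂ) : ℂ[X][X] →+* E :=
  psi E (S.p S.o) c₀ (S.m S.o) (S.b S.o)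

theorem sub_ring [IsFractionRing (RatFunc ℂ)[X] E] (c₀ : ℂ) {f : ℂ[X][X]} (hf : f ∈ S.ring) :
    ∃ W : (RatFunc ℂ)[X], S.sub E c₀ f = algebraMap (RatFunc ℂ)[X] E W ∧
      W.coeff 0 = algebraMap ℂ (RatFunc ℂ) ((S.phiFun f).eval (c₀ ^ S.m S.o)) := by
  have hm := S.m_pos S.o
  have h1 : ∀ d, ∃ h : ℂ[X], (f.coeff d).comp (C (S.p S.o) + X ^ S.m S.o) =
      X ^ (d * S.b S.o) * h := by
    intro d
    have h2 := (hf d).2 S.o
    rw [ex_eq, ← dvd_iff_sub _ hm] at h2
    obtain ⟨h, hh⟩ := h2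
    exact ⟨h, hh⟩
  choose h hh using h1
  have hh0 : ∀ d, f.natDegree < d → h d = 0 := by
    intro d hd
    have h2 := hh d
    rw [coeff_eq_zero_of_natDegree_lt hd, zero_comp] at h2
    exact (mul_eq_zero.mp h2.symm).resolve_left (pow_ne_zero _ X_ne_zero)
  have hexp : ∑ d ∈ Finset.range (f.natDegree + 1), monomial d ((h d).coeff 0) =
      expand ℂ (S.m S.o) (S.phiFun f) := by
    ext n
    rw [finsetSum_coeff, coeff_expand hm]
    simp only [coeff_monomial]
    rw [Finset.sum_ite_eq']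
    have h2 : (h n).coeff 0 = if S.m S.o ∣ n then (S.phiFun f).coeff (n / S.m S.o) else 0 := by
      have h3 : (h n).coeff 0 = (expand ℂ (S.m S.o) (taylor (S.p S.o) (f.coeff n))).coeff
          (n * S.b S.o) := by
        rw [expand_eq_comp_X_pow, taylor_apply, comp_assoc, add_comp, X_comp, C_comp,
          add_comm (X ^ S.m S.o), hh n]
        have h4 := coeff_X_pow_mul (h n) (n * S.b S.o) 0
        rw [zero_add] at h4
        exact h4.symm
      rw [h3, coeff_expand hm]
      by_cases hn : S.m S.o ∣ n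
      · obtain ⟨k, rfl⟩ := hn
        rw [if_pos (Dvd.dvd.mul_right (Dvd.intro k rfl) _), if_pos (Dvd.intro k rfl), coeff_phiFun,
          Nat.mul_div_cancel_left k hm, lam, mul_assoc, Nat.mul_div_cancel_left _ hm, mul_comm k]
      · rw [if_neg hn, if_neg]
        intro h4
        exact hn ((S.coprime S.o).dvd_of_dvd_mul_right h4)
    by_cases hn : n ∈ Finset.range (f.natDegree + 1)
    · rw [if_pos hn, h2]
    · rw [if_neg hn, ← h2, hh0 n (by rw [Finset.mem_range] at hn; omega), coeff_zero]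
  refine ⟨∑ d ∈ Finset.range (f.natDegree + 1),
    (h d).map (algebraMap ℂ (RatFunc ℂ)) * yy c₀ ^ d, ?_, ?_⟩
  · rw [sub, psi_apply, map_sum]
    apply Finset.sum_congr rfl
    intro d _
    have hX := aX_ne_zero E
    rw [up, hh d, Polynomial.map_mul, Polynomial.map_pow, map_X, map_mul, map_mul, map_pow,
      map_pow, div_pow, ← pow_mul, mul_comm d]
    field_simp
  · rw [← expand_eval, ← hexp, eval_finsetSum, map_sum, finsetSum_coeff]
    apply Finset.sum_congr rfl
    intro d _
    rw [eval_monomial, map_mul, map_pow, mul_coeff_zero, coeff_map]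
    congr 1
    rw [coeff_zero_eq_eval_zero, eval_pow, yy]
    simp

theorem sub_gen [IsFractionRing (RatFunc ℂ)[X] E] {c₀ : ℂ} (hc₀ : c₀ ≠ 0) : ∃ U : (RatFunc ℂ)[X], U.coeff 0 ≠ 0 ∧
    S.sub E c₀ S.gen = algebraMap (RatFunc ℂ)[X] E (X * U) := by
  have hm := S.m_pos S.o
  set v : ℂ[X] := ∏ i ∈ Finset.univ.erase S.o, (X - C (S.p i)) ^ S.kap i with hv
  have hg : S.gen = monomial (S.w S.o) ((X - C (S.p S.o)) ^ S.kap S.o * v) := by
    rw [gen, ← Finset.mul_prod_erase Finset.univ _ (Finset.mem_univ S.o)]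
  have hvne : v.eval (S.p S.o) ≠ 0 := by
    rw [hv, eval_prod]
    apply Finset.prod_ne_zero_iff.mpr
    intro i hi
    rw [eval_pow, eval_sub, eval_X, eval_C]
    apply pow_ne_zero
    rw [sub_ne_zero]
    exact fun h => (Finset.ne_of_mem_erase hi) (S.inj h).symm
  refine ⟨up (S.p S.o) (S.m S.o) v * yy c₀ ^ S.w S.o, ?_, ?_⟩
  · rw [mul_coeff_zero]
    apply mul_ne_zero
    · rw [up, coeff_map, coeff_zero_eq_eval_zero, eval_comp]
      simp only [eval_add, eval_C, eval_pow, eval_X, zero_pow hm.ne', add_zero]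
      intro h
      exact hvne ((algebraMap ℂ (RatFunc ℂ)).injective (h.trans (map_zero _).symm))
    · rw [coeff_zero_eq_eval_zero, eval_pow, yy]
      apply pow_ne_zero
      simp only [eval_add, eval_C, eval_mul, eval_X, mul_zero, add_zero]
      intro h
      exact hc₀ ((algebraMap ℂ (RatFunc ℂ)).injective (h.trans (map_zero _).symm))
  · have hX := aX_ne_zero E
    have hk := S.m_kap S.o
    rw [S.dl_o] at hk
    rw [hg, sub, psi, coe_eval₂RingHom, eval₂_monomial]
    change algebraMap (RatFunc ℂ)[X] E (up (S.p S.o) (S.m S.o) _) * _ = _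
    have h1 : up (S.p S.o) (S.m S.o) ((X - C (S.p S.o)) ^ S.kap S.o * v) =
        X ^ (S.b S.o * S.w S.o + 1) * up (S.p S.o) (S.m S.o) v := by
      rw [up, mul_comp, pow_comp, sub_comp, X_comp, C_comp, add_sub_cancel_left, ← pow_mul, hk,
        Polynomial.map_mul, Polynomial.map_pow, map_X]
      rfl
    rw [h1, map_mul, map_mul, map_mul, map_pow, map_pow, div_pow, ← pow_mul, pow_succ]
    field_simp

end Seif

end Pool.Agent.H81.SC
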