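import Pool.Agent.H81.SC.Defs

namespace Pool.Agent.H81.SC

/-- Seifert data exist for all choices of at least three distinct points and pairwise coprime
multiplicities -/
theorem exists_seif {ι : Type} [Fintype ι] [DecidableEq ι] (o : ι) (p : ι → ℂ) (m : ι → ℕ)
    (hp : Function.Injective p) (hcard : 3 ≤ Fintype.card ι) (h1 : 1 ≤ m o)
    (h2 : ∀ i, i ≠ o → 2 ≤ m i) (hco : ∀ i j, i ≠ j → Nat.Coprime (m i) (m j)) :
    ∃ S : Seif ι, S.o = o ∧ S.p = p ∧ S.m = m := by
  have hpos : ∀ i, 0 < m i := by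
    intro i
    by_cases h : i = o
    · rw [h]; exact h1
    · exact lt_of_lt_of_le (by norm_num) (h2 i h)
  have hb : ∀ i, ∃ b : ℕ, m i ∣ b * ∏ j ∈ Finset.univ.erase i, m j + 1 := by
    intro i
    have hc : Nat.Coprime (∏ j ∈ Finset.univ.erase i, m j) (m i) := by
      apply Nat.Coprime.prod_left
      intro j hj
      exact hco j i (Finset.ne_of_mem_erase hj)
    have : NeZero (m i) := ⟨(hpos i).ne'⟩
    refine ⟨(-((∏ j ∈ Finset.univ.erase i, m j : ℕ) : ZMod (m i))⁻¹).val, ?_⟩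
    rw [← ZMod.natCast_eq_zero_iff, Nat.cast_add, Nat.cast_mul, ZMod.natCast_zmod_val,
      Nat.cast_one, neg_mul, mul_comm, ZMod.coe_mul_inv_eq_one _ hc, neg_add_cancel]
  choose b hb using hb
  have hdvd : ∏ i, m i ∣ ∑ i, b i * ∏ j ∈ Finset.univ.erase i, m j + 1 := by
    apply Finset.prod_dvd_of_isRelPrime
    · intro i _ j _ hij
      exact Nat.coprime_iff_isRelPrime.mp (hco i j hij)
    · intro i _
      rw [← Finset.add_sum_erase Finset.univ _ (Finset.mem_univ i)]
      have h3 : m i ∣ ∑ j ∈ Finset.univ.erase i, b j * ∏ l ∈ Finset.univ.erase j, m l := by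
        apply Finset.dvd_sum
        intro j hj
        apply Dvd.dvd.mul_left
        exact Finset.dvd_prod_of_mem m
          (Finset.mem_erase.mpr ⟨(Finset.ne_of_mem_erase hj).symm, Finset.mem_univ i⟩)
      have h4 := dvd_add (hb i) h3
      have h5 : b i * ∏ j ∈ Finset.univ.erase i, m j +
          ∑ j ∈ Finset.univ.erase i, b j * ∏ l ∈ Finset.univ.erase j, m l + 1 =
          b i * ∏ j ∈ Finset.univ.erase i, m j + 1 +
          ∑ j ∈ Finset.univ.erase i, b j * ∏ l ∈ Finset.univ.erase j, m l := by ring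
      rw [h5]
      exact h4
  obtain ⟨e, he⟩ := hdvd
  exact ⟨⟨o, p, m, b, e, hp, hcard, h1, h2, by rw [mul_comm]; exact he.symm⟩, rfl, rfl, rfl⟩

end Pool.Agent.H81.SC
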