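import Mathlib

namespace Pool.Agent.H81.SC

open Polynomial

/-- Seifert data: finitely many points `p i` of the affine line with multiplicities `m i` and
weights `b i`, and an integer `e`, such that the divisor `e [∞] - ∑ (b i / m i) [p i]` on the
projective line has degree `1 / ∏ m i`. There are at least three points, and all
multiplicities but possibly that of the distinguished point `o` are at least two. -/
structure Seif (ι : Type) [Fintype ι] [DecidableEq ι] where
  o : ι
  p : ι → ℂ
  m : ι → ℕ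
  b : ι → ℕ
  e : ℕ
  inj : Function.Injective p
  card : 3 ≤ Fintype.card ι
  one_le : 1 ≤ m o
  two_le : ∀ i, i ≠ o → 2 ≤ m i
  deg : e * ∏ i, m i = ∑ i, b i * ∏ j ∈ Finset.univ.erase i, m j + 1

namespace Seif

variable {ι : Type} [Fintype ι] [DecidableEq ι] (S : Seif ι)

/-- The least integer that is at least `d * b i / m i`. -/
def ex (i : ι) (d : ℕ) : ℕ := (d * S.b i + S.m i - 1) / S.m i

theorem ex_eq (i : ι) (d : ℕ) : S.ex i d = (d * S.b i) ⌈/⌉ S.m i := rfl

theorem m_pos (i : ι) : 0 < S.m i := by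
  by_cases h : i = S.o
  · rw [h]; exact S.one_le
  · exact lt_of_lt_of_le (by norm_num) (S.two_le i h)

theorem ex_le_iff {i : ι} {d n : ℕ} : S.ex i d ≤ n ↔ d * S.b i ≤ S.m i * n := by
  rw [ex_eq]
  exact ceilDiv_le_iff_le_mul (S.m_pos i)

theorem le_ex (i : ι) (d : ℕ) : d * S.b i ≤ S.m i * S.ex i d := S.ex_le_iff.mp le_rfl

theorem ex_add (i : ι) (d d' : ℕ) : S.ex i (d + d') ≤ S.ex i d + S.ex i d' := by
  rw [ex_le_iff, add_mul, mul_add]
  exact add_le_add (S.le_ex i d) (S.le_ex i d')

theorem ex_zero (i : ι) : S.ex i 0 = 0 := by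
  have : S.ex i 0 ≤ 0 := by rw [ex_le_iff]; simp
  omega

/-- The ring of all polynomials `∑ f_d T ^ d` in `ℂ[s][T]` for which `f_d` has degree at most
`d * e` and is divisible by `(s - p i) ^ n`, `n` the least integer with `n ≥ d * b i / m i`, for
all `i`. -/
def ring : Subalgebra ℂ ℂ[X][X] where
  carrier := {f | ∀ d, (f.coeff d).natDegree ≤ d * S.e ∧
    ∀ i, (X - C (S.p i)) ^ S.ex i d ∣ f.coeff d}
  mul_mem' := by
    intro f h hf hh d
    rw [coeff_mul]
    refine ⟨?_, fun i => ?_⟩
    · apply natDegree_sum_le_of_forall_le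
      intro a ha
      rw [Finset.HasAntidiagonal.mem_antidiagonal] at ha
      calc (f.coeff a.1 * h.coeff a.2).natDegree
          ≤ (f.coeff a.1).natDegree + (h.coeff a.2).natDegree := natDegree_mul_le
        _ ≤ a.1 * S.e + a.2 * S.e := add_le_add (hf a.1).1 (hh a.2).1
        _ = d * S.e := by rw [← add_mul, ha]
    · apply Finset.dvd_sum
      intro a ha
      rw [Finset.HasAntidiagonal.mem_antidiagonal] at ha
      refine (pow_dvd_pow _ ?_).trans (by
        rw [pow_add]
        exact mul_dvd_mul ((hf a.1).2 i) ((hh a.2).2 i))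
      rw [← ha]
      exact S.ex_add i a.1 a.2
  add_mem' := by
    intro f h hf hh d
    rw [coeff_add]
    exact ⟨natDegree_add_le_of_degree_le (hf d).1 (hh d).1,
      fun i => dvd_add ((hf d).2 i) ((hh d).2 i)⟩
  algebraMap_mem' := by
    intro r d
    rw [Polynomial.algebraMap_apply, Polynomial.algebraMap_apply, coeff_C]
    split_ifs with h
    · subst h
      refine ⟨by simp, fun i => ?_⟩
      rw [S.ex_zero, pow_zero]
      exact one_dvd _
    · exact ⟨by simp, fun i => dvd_zero _⟩

theorem mem_ring {f : ℂ[X][X]} : f ∈ S.ring ↔ ∀ d, (f.coeff d).natDegree ≤ d * S.e ∧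
    ∀ i, (X - C (S.p i)) ^ S.ex i d ∣ f.coeff d := Iff.rfl

end Seif

end Pool.Agent.H81.SC
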