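import Pool.Agent.H81.SC.Blow

namespace Pool.Agent.H81.SC

open Polynomial WithZero

section

variable (E : Type) [Field E] [Algebra (RatFunc ℂ)[X] E] [IsFractionRing (RatFunc ℂ)[X] E]

theorem val_le_one (W : (RatFunc ℂ)[X]) :
    (idealX (RatFunc ℂ)).valuation E (algebraMap (RatFunc ℂ)[X] E W) ≤ 1 :=
  (idealX (RatFunc ℂ)).valuation_le_one W

theorem val_lt_one_iff (W : (RatFunc ℂ)[X]) :
    (idealX (RatFunc ℂ)).valuation E (algebraMap (RatFunc ℂ)[X] E W) < 1 ↔ W.coeff 0 = 0 := by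
  rw [IsDedekindDomain.HeightOneSpectrum.valuation_of_algebraMap,
    IsDedekindDomain.HeightOneSpectrum.intValuation_lt_one_iff_mem, idealX_span,
    Ideal.mem_span_singleton, X_dvd_iff]

theorem val_X : (idealX (RatFunc ℂ)).valuation E (algebraMap (RatFunc ℂ)[X] E X) =
    exp (-1 : ℤ) := by
  rw [IsDedekindDomain.HeightOneSpectrum.valuation_of_algebraMap,
    IsDedekindDomain.HeightOneSpectrum.intValuation_singleton _ X_ne_zero
      (idealX_span (RatFunc ℂ))]

theorem le_exp_of_lt_one {x : ℤᵐ⁰} (hx : x < 1) : x ≤ exp (-1 : ℤ) := by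
  by_cases h0 : x = 0
  · rw [h0]; exact zero_le
  · rw [← exp_log h0] at hx ⊢
    rw [← exp_zero, exp_lt_exp] at hx
    rw [exp_le_exp]
    omega

end

section

variable {ι : Type} [Fintype ι] [DecidableEq ι] (S : Seif ι)
  {F : Type} [Field F] [Algebra ℂ[X][X] F] [IsFractionRing ℂ[X][X] F]

/-- The equation of the curve, as an element of the coordinate ring. -/
noncomputable def Seif.g : S.Cone := (⟨S.gen, S.gen_mem⟩ : S.ring)

theorem Seif.g_ne_zero : S.g ≠ 0 := fun h => S.gen_ne_zero (congrArg Subtype.val h)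

theorem Seif.ker_res_g : RingHom.ker S.res = Ideal.span {S.g} := S.ker_phi

/-- every point of the curve other than the cusp is the centre of a discrete valuation for which
the equation of the curve is a uniformizer -/
theorem Seif.exists_centred {z₀ : ℂ} (hz₀ : z₀ ≠ 0) : ∃ V : ValuationSubring F,
    Centred V S.res S.g z₀ ∧ Uniformizer V S.g := by
  have hm := S.m_pos S.o
  obtain ⟨c₀, hc₀⟩ := IsAlgClosed.exists_pow_nat_eq z₀ hm
  have hc₀0 : c₀ ≠ 0 := by
    rintro rfl
    rw [zero_pow hm.ne'] at hc₀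
    exact hz₀ hc₀.symm
  have hinj : Function.Injective (S.sub (RatFunc (RatFunc ℂ)) c₀) := psi_injective _ _ _ _ _ hm
  set v := (idealX (RatFunc ℂ)).valuation (RatFunc (RatFunc ℂ)) with hv
  let ψ : F →+* RatFunc (RatFunc ℂ) := IsFractionRing.lift hinj
  have hψ : ∀ a : ℂ[X][X], ψ (algebraMap ℂ[X][X] F a) = S.sub (RatFunc (RatFunc ℂ)) c₀ a :=
    fun a => IsFractionRing.lift_algebraMap hinj a
  let w := v.comap ψ
  have heq : w.IsEquiv w.valuationSubring.valuation := w.isEquiv_valuation_valuationSubring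
  have hlt : ∀ x : F, w.valuationSubring.valuation x < 1 ↔ w x < 1 := by
    intro x
    rw [← not_le, ← not_le, ← map_one w.valuationSubring.valuation, ← heq 1 x, map_one]
  have hW : ∀ a : S.Cone, ∃ W : (RatFunc ℂ)[X], w (algebraMap S.Cone F a) =
      v (algebraMap (RatFunc ℂ)[X] (RatFunc (RatFunc ℂ)) W) ∧
      (W.coeff 0 = 0 ↔ (S.res a).eval z₀ = 0) := by
    intro a
    obtain ⟨W, h1, h2⟩ := S.sub_ring (RatFunc (RatFunc ℂ)) c₀ (f := S.incl a) a.2
    refine ⟨W, ?_, ?_⟩
    · change v (ψ (algebraMap ℂ[X][X] F (S.incl a))) = _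
      rw [hψ, h1]
    · rw [h2, hc₀]
      change algebraMap ℂ (RatFunc ℂ) ((S.res a).eval z₀) = 0 ↔ _
      rw [map_eq_zero]
  have hcen : ∀ a : S.Cone, w.valuationSubring.valuation (algebraMap S.Cone F a) < 1 ↔
      (S.res a).eval z₀ = 0 := by
    intro a
    obtain ⟨W, h1, h2⟩ := hW a
    rw [hlt, h1, hv, val_lt_one_iff, h2]
  have hg : w (algebraMap S.Cone F S.g) = exp (-1 : ℤ) := by
    obtain ⟨U, h1, h2⟩ := S.sub_gen (RatFunc (RatFunc ℂ)) hc₀0
    change v (ψ (algebraMap ℂ[X][X] F S.gen)) = _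
    rw [hψ, h2, map_mul, map_mul, hv, val_X]
    have h3 : (idealX (RatFunc ℂ)).valuation (RatFunc (RatFunc ℂ))
        (algebraMap (RatFunc ℂ)[X] (RatFunc (RatFunc ℂ)) U) = 1 := by
      apply le_antisymm (val_le_one _ U)
      rw [← not_lt, val_lt_one_iff]
      exact h1
    rw [h3, mul_one]
  have huni : ∀ x : F, w.valuationSubring.valuation x < 1 →
      w.valuationSubring.valuation x ≤
        w.valuationSubring.valuation (algebraMap S.Cone F S.g) := by
    intro x hx
    rw [hlt] at hx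
    rw [← heq, hg]
    exact le_exp_of_lt_one hx
  refine ⟨w.valuationSubring, ⟨?_, hcen, ?_⟩, huni⟩
  · intro a
    obtain ⟨W, h1, -⟩ := hW a
    rw [Valuation.mem_valuationSubring_iff, h1]
    exact val_le_one _ W
  · intro a ha
    refine ⟨1, ?_⟩
    rw [pow_one]
    exact huni _ ((hcen a).mpr ha)

end

end Pool.Agent.H81.SC
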