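import Pool.Agent.H81.SC.Int

namespace Pool.Agent.H81.SC

open Polynomial

namespace Seif

variable {ι : Type} [Fintype ι] [DecidableEq ι] (S : Seif ι)

/-- the product of the other multiplicities -/
def w (i : ι) : ℕ := ∏ j ∈ Finset.univ.erase i, S.m j

theorem prod_eq (i : ι) : ∏ j, S.m j = S.m i * S.w i :=
  (Finset.mul_prod_erase Finset.univ S.m (Finset.mem_univ i)).symm

theorem prod_pos : 0 < ∏ j, S.m j := Finset.prod_pos (fun i _ => S.m_pos i)

theorem w_pos (i : ι) : 0 < S.w i := Finset.prod_pos (fun i _ => S.m_pos i)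

theorem deg' : S.e * ∏ i, S.m i = ∑ i, S.b i * S.w i + 1 := S.deg

theorem ex_lt (i : ι) (d : ℕ) : S.m i * S.ex i d < d * S.b i + S.m i := by
  have h := S.m_pos i
  have h1 : S.m i * S.ex i d ≤ d * S.b i + S.m i - 1 := by
    rw [ex]
    exact Nat.mul_div_le _ _
  omega

theorem ex_mono (i : ι) {d d' : ℕ} (h : d ≤ d') : S.ex i d ≤ S.ex i d' := by
  rw [ex_le_iff]
  exact (Nat.mul_le_mul_right _ h).trans (S.le_ex i d')

theorem sum_ex (d : ℕ) : (∏ j, S.m j) * ∑ i, S.ex i d + d ≤
    d * S.e * (∏ j, S.m j) + (∏ j, S.m j) * Fintype.card ι := by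
  have h1 : (∏ j, S.m j) * ∑ i, S.ex i d ≤
      ∑ i, (d * (S.b i * S.w i) + ∏ j, S.m j) := by
    rw [Finset.mul_sum]
    apply Finset.sum_le_sum
    intro i _
    calc (∏ j, S.m j) * S.ex i d = S.w i * (S.m i * S.ex i d) := by rw [S.prod_eq i]; ring
      _ ≤ S.w i * (d * S.b i + S.m i) := Nat.mul_le_mul_left _ (S.ex_lt i d).le
      _ = d * (S.b i * S.w i) + ∏ j, S.m j := by rw [S.prod_eq i]; ring
  rw [Finset.sum_add_distrib, ← Finset.mul_sum, Finset.sum_const, Finset.card_univ,
    smul_eq_mul] at h1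
  have h2 := congrArg (fun x => d * x) S.deg'
  simp only [mul_add, mul_one] at h2
  rw [mul_assoc, h2]
  linarith

theorem mono_mem (d : ℕ) (u : ℂ[X]) (h : u.natDegree ≤ d * S.e)
    (hi : ∀ i, (X - C (S.p i)) ^ S.ex i d ∣ u) : monomial d u ∈ S.ring := by
  intro n
  rw [coeff_monomial]
  split_ifs with hn
  · subst hn
    exact ⟨h, hi⟩
  · exact ⟨by simp, fun i => dvd_zero _⟩

theorem natDegree_prod_pow (k : ι → ℕ) (s : Finset ι) :
    (∏ i ∈ s, (X - C (S.p i)) ^ k i).natDegree = ∑ i ∈ s, k i := by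
  rw [natDegree_prod_of_monic _ _ (fun i _ => (monic_X_sub_C _).pow _)]
  apply Finset.sum_congr rfl
  intro i _
  rw [natDegree_pow, natDegree_X_sub_C, mul_one]

theorem prod_pow_ne_zero (k : ι → ℕ) (s : Finset ι) :
    (∏ i ∈ s, (X - C (S.p i)) ^ k i) ≠ 0 :=
  (monic_prod_of_monic _ _ (fun _ _ => (monic_X_sub_C _).pow _)).ne_zero

theorem exists_mul_mem (f : ℂ[X][X]) : ∃ a ∈ S.ring, a ≠ 0 ∧ a * f ∈ S.ring := by
  set N := ∏ j, S.m j with hN
  set D := f.support.sup (fun n => (f.coeff n).natDegree) with hD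
  have hDn : ∀ n, (f.coeff n).natDegree ≤ D := by
    intro n
    by_cases h : n ∈ f.support
    · exact Finset.le_sup (f := fun n => (f.coeff n).natDegree) h
    · rw [notMem_support_iff.mp h]; simp
  set M := f.natDegree * S.e * N + N * (Fintype.card ι + D) with hM
  have hsum : ∑ i, S.ex i (M + f.natDegree) + D ≤ M * S.e := by
    have h1 := S.sum_ex (M + f.natDegree)
    rw [← hN] at h1
    have hNpos : 0 < N := S.prod_pos
    refine le_of_mul_le_mul_left (a := N) ?_ hNpos
    have h2 : M * S.e * N + f.natDegree * S.e * N = (M + f.natDegree) * S.e * N := by ring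
    have h3 : N * (∑ i, S.ex i (M + f.natDegree) + D) = N * ∑ i, S.ex i (M + f.natDegree) +
      N * D := by ring
    have h4 : N * (Fintype.card ι + D) = N * Fintype.card ι + N * D := by ring
    have h5 : N * (M * S.e) = M * S.e * N := by ring
    rw [h3, h5]
    omega
  set u : ℂ[X] := ∏ i, (X - C (S.p i)) ^ S.ex i (M + f.natDegree) with hu
  have hudeg : u.natDegree = ∑ i, S.ex i (M + f.natDegree) := S.natDegree_prod_pow _ _
  have hudvd : ∀ i, ∀ d ≤ M + f.natDegree, (X - C (S.p i)) ^ S.ex i d ∣ u := by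
    intro i d hd
    exact (pow_dvd_pow _ (S.ex_mono i hd)).trans
      (Finset.dvd_prod_of_mem (fun j => (X - C (S.p j)) ^ S.ex j (M + f.natDegree))
        (Finset.mem_univ i))
  refine ⟨monomial M u, S.mono_mem _ _ ?_ (fun i => hudvd i M (Nat.le_add_right _ _)), ?_, ?_⟩
  · rw [hudeg]; omega
  · intro h
    rw [monomial_eq_zero_iff] at h
    exact S.prod_pow_ne_zero _ _ h
  · intro n
    rw [← C_mul_X_pow_eq_monomial, mul_assoc, coeff_C_mul, mul_comm (X ^ M) f, coeff_mul_X_pow']
    split_ifs with hn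
    · obtain ⟨d, rfl⟩ := Nat.exists_eq_add_of_le hn
      rw [Nat.add_sub_cancel_left]
      refine ⟨?_, fun i => ?_⟩
      · refine natDegree_mul_le.trans ?_
        rw [hudeg, add_mul]
        have := hDn d
        omega
      · by_cases hd : d ≤ f.natDegree
        · exact Dvd.dvd.mul_right (hudvd i _ (by omega)) _
        · rw [coeff_eq_zero_of_natDegree_lt (by omega), mul_zero]
          exact dvd_zero _
    · rw [mul_zero]
      exact ⟨by simp, fun i => dvd_zero _⟩

theorem isFractionRing (F : Type) [Field F] [Algebra ℂ[X][X] F] [IsFractionRing ℂ[X][X] F] :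
    IsFractionRing S.ring F where
  map_units := by
    intro y
    have h : algebraMap S.ring F y ≠ 0 := by
      intro h0
      have h1 : algebraMap ℂ[X][X] F (y : S.ring) = 0 := h0
      have h2 := (IsFractionRing.injective ℂ[X][X] F) (h1.trans (map_zero _).symm)
      exact nonZeroDivisors.coe_ne_zero y (Subtype.ext h2)
    exact isUnit_iff_ne_zero.mpr h
  surj := by
    intro z
    obtain ⟨x, y, hy, rfl⟩ := IsFractionRing.div_surjective (A := ℂ[X][X]) z
    obtain ⟨a, ha, ha0, hax⟩ := S.exists_mul_mem x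
    obtain ⟨c, hc, hc0, hcy⟩ := S.exists_mul_mem y
    have hy0 : y ≠ 0 := nonZeroDivisors.ne_zero hy
    refine ⟨(⟨c * (a * x), S.ring.mul_mem hc hax⟩, ⟨⟨a * (c * y), S.ring.mul_mem ha hcy⟩, ?_⟩), ?_⟩
    · rw [mem_nonZeroDivisors_iff_ne_zero]
      intro h
      have h1 : a * (c * y) = 0 := congrArg Subtype.val h
      exact (mul_ne_zero ha0 (mul_ne_zero hc0 hy0)) h1
    · change algebraMap ℂ[X][X] F x / algebraMap ℂ[X][X] F y *
        algebraMap ℂ[X][X] F (a * (c * y)) = algebraMap ℂ[X][X] F (c * (a * x))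
      have hy1 : algebraMap ℂ[X][X] F y ≠ 0 := by
        intro h
        exact hy0 ((IsFractionRing.injective ℂ[X][X] F) (h.trans (map_zero _).symm))
      simp only [map_mul]
      field_simp
  exists_of_eq := by
    intro x y h
    refine ⟨1, ?_⟩
    have h1 : (x : ℂ[X][X]) = y := (IsFractionRing.injective ℂ[X][X] F) h
    rw [Subtype.ext h1]

theorem isIntegrallyClosed : IsIntegrallyClosed S.ring := by
  have := S.isFractionRing (FractionRing ℂ[X][X])
  rw [isIntegrallyClosed_iff (FractionRing ℂ[X][X])]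
  intro x hx
  have h1 : IsIntegral ℂ[X][X] x := hx.tower_top
  obtain ⟨f, rfl⟩ := IsIntegrallyClosed.isIntegral_iff.mp h1
  have h2 : IsIntegral S.ring f := by
    have hinj : Function.Injective (algebraMap ℂ[X][X] (FractionRing ℂ[X][X])) :=
      IsFractionRing.injective _ _
    exact (isIntegral_algebraMap_iff hinj).mp hx
  exact ⟨⟨f, S.mem_of_integral h2⟩, rfl⟩

end Seif

end Pool.Agent.H81.SC
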