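import Pool.Agent.H81.SC.Defs

namespace Pool.Agent.H81.SC

open Polynomial

attribute [local instance] Polynomial.algebra

/-- a substitution `s ↦ ρ s`, `T ↦ y T` that maps a ring of polynomials to polynomials with
coefficients in `ℂ[X]` does so for all integral elements -/
theorem int_coeff {E : Type} [Field E] [Algebra ℂ[X] E] [IsFractionRing ℂ[X] E]
    (ρ : ℂ[X] →+* E) (y : E) (A : Subalgebra ℂ ℂ[X][X])
    (hA : ∀ a ∈ A, ∀ d, ρ (a.coeff d) * y ^ d ∈ (algebraMap ℂ[X] E).range)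
    {f : ℂ[X][X]} (hf : IsIntegral A f) (d : ℕ) :
    ρ (f.coeff d) * y ^ d ∈ (algebraMap ℂ[X] E).range := by
  let Ψ : ℂ[X][X] →+* E[X] := (compRingHom (C y * X)).comp (mapRingHom ρ)
  have hΨ : ∀ (a : ℂ[X][X]) (n : ℕ), (Ψ a).coeff n = ρ (a.coeff n) * y ^ n := by
    intro a n
    change ((a.map ρ).comp (C y * X)).coeff n = _
    rw [comp_C_mul_X_coeff, coeff_map]
  obtain ⟨P, hP, hP0⟩ := hf
  have hΨA : ∀ a ∈ A, ∃ q : ℂ[X][X], algebraMap ℂ[X][X] E[X] q = Ψ a := by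
    intro a ha
    have h1 : Ψ a ∈ lifts (algebraMap ℂ[X] E) := by
      rw [lifts_iff_coeff_lifts]
      intro n
      rw [hΨ]
      exact hA a ha n
    obtain ⟨q, hq⟩ := (mem_lifts _).mp h1
    exact ⟨q, hq⟩
  let Q := P.map (Ψ.comp (algebraMap A ℂ[X][X]))
  have hQ : Q.Monic := hP.map _
  have hQ0 : Q.eval (Ψ f) = 0 := by
    change (P.map (Ψ.comp (algebraMap A ℂ[X][X]))).eval (Ψ f) = 0
    rw [eval_map, ← hom_eval₂, hP0, map_zero]
  have hQl : Q ∈ lifts (algebraMap ℂ[X][X] E[X]) := by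
    rw [lifts_iff_coeff_lifts]
    intro n
    change (P.map (Ψ.comp (algebraMap A ℂ[X][X]))).coeff n ∈ _
    rw [coeff_map]
    obtain ⟨q, hq⟩ := hΨA _ (P.coeff n).2
    exact ⟨q, hq⟩
  obtain ⟨Q', h1, -, h3⟩ := lifts_and_natDegree_eq_and_monic hQl hQ
  have h4 : IsIntegral ℂ[X][X] (Ψ f) := by
    refine ⟨Q', h3, ?_⟩
    rw [← eval_map, h1]
    exact hQ0
  rw [isIntegral_iff_isIntegral_coeff] at h4
  obtain ⟨c, hc⟩ := IsIntegrallyClosed.isIntegral_iff.mp (h4 d)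
  exact ⟨c, by rw [hc, hΨ]⟩

/-- the order at a point, by substitution -/
theorem dvd_iff_sub (p : ℂ) {m : ℕ} (hm : 0 < m) (n : ℕ) (u : ℂ[X]) :
    X ^ n ∣ u.comp (C p + X ^ m) ↔ (X - C p) ^ (n ⌈/⌉ m) ∣ u := by
  constructor
  · intro h
    by_cases hu : u = 0
    · rw [hu]; exact dvd_zero _
    obtain ⟨v, hv, hv0⟩ := exists_eq_pow_rootMultiplicity_mul_and_not_dvd u hu p
    set k := rootMultiplicity p u with hk
    rw [hv] at h
    rw [mul_comp, pow_comp, sub_comp, X_comp, C_comp, add_sub_cancel_left, ← pow_mul] at h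
    have h1 : ¬ (X : ℂ[X]) ∣ v.comp (C p + X ^ m) := by
      rw [X_dvd_iff, coeff_zero_eq_eval_zero, eval_comp]
      intro h2
      apply hv0
      rw [dvd_iff_isRoot]
      simpa [hm.ne'] using h2
    have h2 : n ≤ m * k := by
      by_contra hcon
      rw [not_le] at hcon
      obtain ⟨j, rfl⟩ : ∃ j, n = m * k + (j + 1) := ⟨n - m * k - 1, by omega⟩
      rw [pow_add] at h
      have h3 := (mul_dvd_mul_iff_left (pow_ne_zero _ X_ne_zero)).mp h
      exact h1 ((dvd_pow_self X (Nat.succ_ne_zero j)).trans h3)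
    rw [hv]
    apply Dvd.dvd.mul_right
    apply pow_dvd_pow
    rw [ceilDiv_le_iff_le_mul hm]
    exact h2
  · rintro ⟨v, rfl⟩
    rw [mul_comp, pow_comp, sub_comp, X_comp, C_comp, add_sub_cancel_left, ← pow_mul]
    apply Dvd.dvd.mul_right
    apply pow_dvd_pow
    rw [← ceilDiv_le_iff_le_mul hm]

section

variable (E : Type) [Field E] [Algebra ℂ[X] E] [IsFractionRing ℂ[X] E]

theorem X_ne_zero_E : algebraMap ℂ[X] E X ≠ 0 := by
  intro h
  have := (IsFractionRing.injective ℂ[X] E) (h.trans (map_zero _).symm)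
  exact X_ne_zero this

/-- the condition at a finite point -/
theorem fin_iff (p : ℂ) {m : ℕ} (hm : 0 < m) (b d : ℕ) (u : ℂ[X]) :
    (algebraMap ℂ[X] E).comp (compRingHom (C p + X ^ m)) u *
      ((algebraMap ℂ[X] E X)⁻¹ ^ b) ^ d ∈ (algebraMap ℂ[X] E).range ↔
    (X - C p) ^ ((d * b) ⌈/⌉ m) ∣ u := by
  have hX := X_ne_zero_E E
  rw [← dvd_iff_sub p hm]
  constructor
  · rintro ⟨v, hv⟩
    refine ⟨v, ?_⟩
    apply IsFractionRing.injective ℂ[X] E
    rw [map_mul, hv, map_pow, ← pow_mul, mul_comm b d, inv_pow]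
    change _ = _ * (algebraMap ℂ[X] E (u.comp (C p + X ^ m)) * _)
    field_simp
  · rintro ⟨v, hv⟩
    refine ⟨v, ?_⟩
    change _ = algebraMap ℂ[X] E (u.comp (C p + X ^ m)) * _
    rw [hv, map_mul, map_pow, ← pow_mul, mul_comm b d, inv_pow]
    field_simp

/-- the condition at infinity -/
theorem inf_iff (e d : ℕ) (u : ℂ[X]) :
    (eval₂RingHom ((algebraMap ℂ[X] E).comp C) (algebraMap ℂ[X] E X)⁻¹) u *
      ((algebraMap ℂ[X] E X) ^ e) ^ d ∈ (algebraMap ℂ[X] E).range ↔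
    u.natDegree ≤ d * e := by
  have hX := X_ne_zero_E E
  have hrev : (eval₂RingHom ((algebraMap ℂ[X] E).comp C) (algebraMap ℂ[X] E X)⁻¹) u *
      (algebraMap ℂ[X] E X) ^ u.natDegree = algebraMap ℂ[X] E u.reverse := by
    let _ : Invertible (algebraMap ℂ[X] E X)⁻¹ := invertibleOfNonzero (inv_ne_zero hX)
    have h := eval₂_reverse_mul_pow ((algebraMap ℂ[X] E).comp C) (algebraMap ℂ[X] E X)⁻¹ u
    rw [invOf_eq_inv, inv_inv] at h
    rw [coe_eval₂RingHom, ← h, inv_pow, mul_assoc, inv_mul_cancel₀ (pow_ne_zero _ hX), mul_one,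
      ← hom_eval₂, eval₂_C_X]
  rw [← pow_mul, mul_comm e d]
  constructor
  · rintro ⟨v, hv⟩
    by_contra hcon
    rw [not_le] at hcon
    obtain ⟨j, hj⟩ : ∃ j, u.natDegree = d * e + (j + 1) := ⟨u.natDegree - d * e - 1, by omega⟩
    have h1 : u.reverse = v * X ^ (j + 1) := by
      apply IsFractionRing.injective ℂ[X] E
      rw [← hrev, map_mul, hv, map_pow, hj, pow_add]
      ring
    have h2 : u.reverse.coeff 0 = 0 := by
      rw [h1, pow_succ, ← mul_assoc, mul_coeff_zero, coeff_X_zero, mul_zero]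
    rw [coeff_zero_reverse, leadingCoeff_eq_zero] at h2
    rw [h2, natDegree_zero] at hcon
    omega
  · intro h
    obtain ⟨j, hj⟩ := Nat.exists_eq_add_of_le h
    refine ⟨u.reverse * X ^ j, ?_⟩
    rw [map_mul, ← hrev, map_pow, hj, pow_add]
    ring

end

namespace Seif

variable {ι : Type} [Fintype ι] [DecidableEq ι] (S : Seif ι)

/-- integral polynomials belong to the ring -/
theorem mem_of_integral {f : ℂ[X][X]} (hf : IsIntegral S.ring f) : f ∈ S.ring := by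
  intro d
  constructor
  · rw [← inf_iff (RatFunc ℂ)]
    exact int_coeff _ _ S.ring (fun a ha n => (inf_iff (RatFunc ℂ) _ _ _).mpr (ha n).1) hf d
  · intro i
    rw [ex_eq, ← fin_iff (RatFunc ℂ) _ (S.m_pos i)]
    exact int_coeff _ _ S.ring
      (fun a ha n => (fin_iff (RatFunc ℂ) _ (S.m_pos i) _ _ _).mpr ((ha n).2 i)) hf d

end Seif

end Pool.Agent.H81.SC
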