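import Pool.Agent.H81.SC.Phi

namespace Pool.Agent.H81.SC

open Polynomial

namespace Seif

variable {ι : Type} [Fintype ι] [DecidableEq ι] (S : Seif ι)

/-- one at the distinguished point, zero at the others -/
def dl (i : ι) : ℕ := if i = S.o then 1 else 0

theorem dl_o : S.dl S.o = 1 := if_pos rfl

theorem dl_ne {i : ι} (h : i ≠ S.o) : S.dl i = 0 := if_neg h

/-- the exponents of the equation of the curve -/
def kap (i : ι) : ℕ := (S.b i * S.w S.o + S.dl i) / S.m i

theorem m_kap (i : ι) : S.m i * S.kap i = S.b i * S.w S.o + S.dl i := by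
  rw [kap]
  apply Nat.mul_div_cancel'
  by_cases h : i = S.o
  · rw [h, S.dl_o]; exact S.dvd_key _
  · rw [S.dl_ne h, add_zero]
    exact Dvd.dvd.mul_left (S.dvd_w h) _

theorem sum_w_dl : ∑ i, S.w i * S.dl i = S.w S.o := by
  rw [Finset.sum_eq_single S.o]
  · rw [S.dl_o, mul_one]
  · intro i _ h
    rw [S.dl_ne h, mul_zero]
  · intro h
    exact absurd (Finset.mem_univ _) h

theorem prod_mul_sum (a : ι → ℕ) : (∏ j, S.m j) * ∑ i, a i = ∑ i, S.w i * (S.m i * a i) := by
  rw [Finset.mul_sum]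
  apply Finset.sum_congr rfl
  intro i _
  rw [S.prod_eq i]; ring

theorem sum_kap : ∑ i, S.kap i = S.w S.o * S.e := by
  apply Nat.eq_of_mul_eq_mul_left S.prod_pos
  rw [S.prod_mul_sum]
  simp only [S.m_kap]
  have h1 : ∑ i, S.w i * (S.b i * S.w S.o + S.dl i) = S.w S.o * (∑ i, S.b i * S.w i + 1) := by
    simp only [mul_add]
    rw [Finset.sum_add_distrib, S.sum_w_dl, Finset.mul_sum, mul_one]
    congr 1
    apply Finset.sum_congr rfl
    intro i _
    ring
  rw [h1, ← S.deg']
  ring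

/-- divisibility by a product of powers -/
theorem prod_dvd (a : ι → ℕ) {u : ℂ[X]} (h : ∀ i, (X - C (S.p i)) ^ a i ∣ u) :
    ∏ i, (X - C (S.p i)) ^ a i ∣ u := by
  apply Finset.prod_dvd_of_coprime
  · intro i _ j _ hij
    exact (pairwise_coprime_X_sub_C S.inj hij).pow
  · intro i _
    exact h i

theorem sum_le {d : ℕ} {u : ℂ[X]} (hu : u ≠ 0) (hd : u.natDegree ≤ d * S.e) (a : ι → ℕ)
    (h : ∀ i, (X - C (S.p i)) ^ a i ∣ u) :
    ∑ i, S.w i * (S.m i * a i) ≤ d * (∑ i, S.b i * S.w i + 1) := by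
  have h1 := natDegree_le_of_dvd (S.prod_dvd a h) hu
  rw [S.natDegree_prod_pow] at h1
  rw [← S.prod_mul_sum]
  calc (∏ j, S.m j) * ∑ i, a i ≤ (∏ j, S.m j) * (d * S.e) :=
        Nat.mul_le_mul_left _ (h1.trans hd)
    _ = d * (S.e * ∏ j, S.m j) := by ring
    _ = _ := by rw [S.deg']

/-- the equation of the curve -/
noncomputable def gen : ℂ[X][X] := monomial (S.w S.o) (∏ i, (X - C (S.p i)) ^ S.kap i)

theorem gen_mem : S.gen ∈ S.ring := by
  apply S.mono_mem
  · rw [S.natDegree_prod_pow, S.sum_kap]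
  · intro i
    refine (pow_dvd_pow _ ?_).trans
      (Finset.dvd_prod_of_mem (fun j => (X - C (S.p j)) ^ S.kap j) (Finset.mem_univ i))
    rw [ex_le_iff, S.m_kap]
    nlinarith

theorem gen_ne_zero : S.gen ≠ 0 := by
  intro h
  rw [gen, monomial_eq_zero_iff] at h
  exact S.prod_pow_ne_zero _ _ h

theorem lam_gen (k : ℕ) : S.lam S.gen k = 0 := by
  rw [lam, gen, coeff_monomial]
  split_ifs with h
  · obtain ⟨v, hv⟩ := Finset.dvd_prod_of_mem (fun j => (X - C (S.p j)) ^ S.kap j)
      (Finset.mem_univ S.o)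
    rw [hv, taylor_mul, taylor_pi]
    have h1 : (X : ℂ[X]) ^ S.kap S.o ∣ X ^ S.kap S.o * taylor (S.p S.o) v := Dvd.intro _ rfl
    rw [X_pow_dvd_iff] at h1
    apply h1
    have h2 := S.m_kap S.o
    rw [h, S.dl_o] at h2
    have h3 : S.m S.o * (S.b S.o * k) < S.m S.o * S.kap S.o := by
      rw [h2]
      have : S.m S.o * (S.b S.o * k) = S.b S.o * (S.m S.o * k) := by ring
      omega
    exact Nat.lt_of_mul_lt_mul_left h3
  · rw [map_zero, coeff_zero]

/-- the orders of the coefficients of a function that vanishes on the curve -/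
theorem exists_exp {f : ℂ[X][X]} (hf : f ∈ S.ring) (h0 : ∀ k, S.lam f k = 0) (d : ℕ) :
    ∃ a : ι → ℕ, (∀ i, d * S.b i + S.dl i ≤ S.m i * a i) ∧
      ∀ i, (X - C (S.p i)) ^ a i ∣ f.coeff d := by
  by_cases hfd : f.coeff d = 0
  · refine ⟨fun i => d * S.b i + S.dl i, fun i => Nat.le_mul_of_pos_left _ (S.m_pos i),
      fun i => ?_⟩
    rw [hfd]
    exact dvd_zero _
  · set r := rootMultiplicity (S.p S.o) (f.coeff d) with hr
    have h1 : S.ex S.o d ≤ r := by
      rw [hr, le_rootMultiplicity_iff hfd]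
      exact (hf d).2 S.o
    rw [ex_le_iff] at h1
    have h2 : S.m S.o * r ≠ d * S.b S.o := by
      intro h
      obtain ⟨k, rfl⟩ := (S.coprime S.o).dvd_of_dvd_mul_right ⟨r, h.symm⟩
      have h3 : r = S.b S.o * k := by
        apply Nat.eq_of_mul_eq_mul_left (S.m_pos S.o)
        rw [h]; ring
      obtain ⟨v, hv, hv0⟩ := exists_eq_pow_rootMultiplicity_mul_and_not_dvd _ hfd (S.p S.o)
      have h4 := h0 k
      rw [lam, hv, ← hr, taylor_mul, taylor_pi, h3] at h4
      have h5 : (X ^ (S.b S.o * k) * taylor (S.p S.o) v).coeff (0 + S.b S.o * k) =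
        (taylor (S.p S.o) v).coeff 0 := coeff_X_pow_mul _ _ _
      rw [zero_add, h4, taylor_coeff_zero] at h5
      exact hv0 (dvd_iff_isRoot.mpr h5.symm)
    refine ⟨fun i => if i = S.o then r else S.ex i d, fun i => ?_, fun i => ?_⟩
    · by_cases hi : i = S.o
      · simp only [hi, if_true, S.dl_o]
        omega
      · simp only [hi, if_false, S.dl_ne hi, add_zero]
        exact S.le_ex i d
    · by_cases hi : i = S.o
      · simp only [hi, if_true]
        exact pow_rootMultiplicity_dvd _ _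
      · simp only [hi, if_false]
        exact (hf d).2 i

theorem low_zero {f : ℂ[X][X]} (hf : f ∈ S.ring) (h0 : ∀ k, S.lam f k = 0) {d : ℕ}
    (hd : d < S.w S.o) : f.coeff d = 0 := by
  by_contra hfd
  obtain ⟨a, ha1, ha2⟩ := S.exists_exp hf h0 d
  have h1 := S.sum_le hfd (hf d).1 a ha2
  have h2 : ∑ i, S.w i * (d * S.b i + S.dl i) ≤ ∑ i, S.w i * (S.m i * a i) :=
    Finset.sum_le_sum (fun i _ => Nat.mul_le_mul_left _ (ha1 i))
  have h3 : ∑ i, S.w i * (d * S.b i + S.dl i) = d * (∑ i, S.b i * S.w i) + S.w S.o := by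
    simp only [mul_add]
    rw [Finset.sum_add_distrib, S.sum_w_dl, Finset.mul_sum]
    congr 1
    apply Finset.sum_congr rfl
    intro i _
    ring
  rw [h3] at h2
  rw [mul_add, mul_one] at h1
  omega

theorem gen_dvd {f : ℂ[X][X]} (hf : f ∈ S.ring) (h0 : ∀ k, S.lam f k = 0) :
    ∃ f' ∈ S.ring, f = S.gen * f' := by
  have h1 : (X : ℂ[X][X]) ^ S.w S.o ∣ f := by
    rw [X_pow_dvd_iff]
    exact fun d hd => S.low_zero hf h0 hd
  obtain ⟨f1, hf1⟩ := h1
  have hc1 : ∀ n, f1.coeff n = f.coeff (n + S.w S.o) := by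
    intro n
    rw [hf1, coeff_X_pow_mul]
  have h2 : C (∏ i, (X - C (S.p i)) ^ S.kap i) ∣ f1 := by
    rw [C_dvd_iff_dvd_coeff]
    intro n
    rw [hc1]
    obtain ⟨a, ha1, ha2⟩ := S.exists_exp hf h0 (n + S.w S.o)
    apply S.prod_dvd
    intro i
    refine (pow_dvd_pow _ ?_).trans (ha2 i)
    apply Nat.le_of_mul_le_mul_left _ (S.m_pos i)
    rw [S.m_kap]
    refine le_trans ?_ (ha1 i)
    nlinarith
  obtain ⟨f', hf'⟩ := h2
  have hq := S.prod_pow_ne_zero S.kap Finset.univ
  have hc : ∀ n, f.coeff (n + S.w S.o) = (∏ i, (X - C (S.p i)) ^ S.kap i) * f'.coeff n := by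
    intro n
    rw [← hc1, hf', coeff_C_mul]
  refine ⟨f', ?_, ?_⟩
  · intro n
    refine ⟨?_, fun i => ?_⟩
    · by_cases hn : f'.coeff n = 0
      · rw [hn]; simp
      · have h3 := (hf (n + S.w S.o)).1
        rw [hc, natDegree_mul hq hn, S.natDegree_prod_pow, S.sum_kap, add_mul] at h3
        omega
    · obtain ⟨a, ha1, ha2⟩ := S.exists_exp hf h0 (n + S.w S.o)
      have h3 := ha2 i
      have h4 := ha1 i
      have h5 := S.m_kap i
      have h6 : S.kap i + S.ex i n ≤ a i := by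
        have h7 : S.kap i ≤ a i := by
          apply Nat.le_of_mul_le_mul_left _ (S.m_pos i)
          rw [h5]
          refine le_trans ?_ h4
          nlinarith
        obtain ⟨c, hc'⟩ := Nat.exists_eq_add_of_le h7
        rw [hc']
        apply Nat.add_le_add_left
        rw [ex_le_iff]
        rw [hc', mul_add, h5, add_mul] at h4
        nlinarith
      have h8 := (pow_dvd_pow (X - C (S.p i)) h6).trans h3
      rw [hc, ← Finset.mul_prod_erase Finset.univ _ (Finset.mem_univ i), pow_add, mul_assoc] at h8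
      have h9 := (mul_dvd_mul_iff_left (pow_ne_zero _ (X_sub_C_ne_zero (S.p i)))).mp h8
      refine IsCoprime.dvd_of_dvd_mul_left ?_ h9
      apply IsCoprime.prod_right
      intro j hj
      exact (pairwise_coprime_X_sub_C S.inj (Finset.ne_of_mem_erase hj).symm).pow
  · rw [gen, ← C_mul_X_pow_eq_monomial, hf1, hf']
    ring

/-- the kernel of the restriction to the curve is principal -/
theorem ker_phi : RingHom.ker S.phi = Ideal.span {(⟨S.gen, S.gen_mem⟩ : S.ring)} := by
  ext f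
  rw [RingHom.mem_ker, Ideal.mem_span_singleton]
  constructor
  · intro h
    have h0 : ∀ k, S.lam f k = 0 := by
      intro k
      rw [← S.coeff_phi, h, coeff_zero]
    obtain ⟨f', hf', h1⟩ := S.gen_dvd f.2 h0
    exact ⟨⟨f', hf'⟩, Subtype.ext h1⟩
  · rintro ⟨f', rfl⟩
    rw [map_mul]
    have : S.phi ⟨S.gen, S.gen_mem⟩ = 0 := by
      ext k
      rw [S.coeff_phi, coeff_zero]
      exact S.lam_gen k
    rw [this, zero_mul]

end Seif

end Pool.Agent.H81.SC
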