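import Pool.Agent.H81.SC.Sep
import Pool.Agent.H81.PC.Modif

namespace Pool.Agent.H81.SC

open Polynomial Pool.Agent.H81.PC

universe u v

section

variable {A : Type u} {F : Type v} [CommRing A] [Field F] [Algebra A F] [Algebra ℂ A]

/-- The valuation ring `V` of the field of fractions of `A` contains `A`, its centre on `Spec A`
is the point of parameter `z₀` of the curve parametrised by `φ`, and every function vanishing at
that point has a power whose value is at most that of `g`. -/
structure Centred (V : ValuationSubring F) (φ : A →ₐ[ℂ] ℂ[X]) (g : A) (z₀ : ℂ) : Prop where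
  mem : ∀ a : A, algebraMap A F a ∈ V
  centre : ∀ a : A, V.valuation (algebraMap A F a) < 1 ↔ (φ a).eval z₀ = 0
  arch : ∀ a : A, (φ a).eval z₀ = 0 →
    ∃ n : ℕ, V.valuation (algebraMap A F a) ^ n ≤ V.valuation (algebraMap A F g)

/-- The curve parametrised by `φ : A → ℂ[X]` has a cusp at the parameter `x₀`. -/
def Cusp (φ : A →ₐ[ℂ] ℂ[X]) (x₀ : ℂ) : Prop := ∀ f : A, (derivative (φ f)).eval x₀ = 0

/-- The parametrisation `φ` takes the value at `z₀` nowhere else. -/
def Separates (φ : A →ₐ[ℂ] ℂ[X]) (z₀ : ℂ) : Prop :=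
  ∀ z : ℂ, z ≠ z₀ → ∃ a : A, (φ a).eval z ≠ (φ a).eval z₀

/-- The function `g` is a uniformizer of the valuation ring `V`. -/
def Uniformizer (V : ValuationSubring F) (g : A) : Prop :=
  ∀ x : F, V.valuation x < 1 → V.valuation x ≤ V.valuation (algebraMap A F g)

/-- For the affine modification `B` of `A`: no `p` in `A` and `q` in `B` define a proper map, and
Jelonek's property fails. -/
def Fails [Algebra ℂ F] [IsScalarTower ℂ A F] (g : A) (V : ValuationSubring F)
    (hV : ∀ a : A, algebraMap A F a ∈ V) : Prop :=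
  (∀ (p : A) (q : modif g V hV), ¬ ProperPair ℂ (algebraMap A (modif g V hV) p) q) ∧
    ¬ PropertyP ℂ (modif g V hV)

/-- the criterion -/
theorem modif_fails [Algebra ℂ F] [IsScalarTower ℂ A F]
    [IsDomain A] [IsFractionRing A F] [IsIntegrallyClosed A] {g : A} (φ : A →ₐ[ℂ] ℂ[X])
    (hφ : RingHom.ker φ = Ideal.span {g}) (hg0 : g ≠ 0) {x₀ z₀ : ℂ} (hne : z₀ ≠ x₀)
    (hcusp : Cusp φ x₀) (hsep : Separates φ z₀)
    (V : ValuationSubring F) (hV : Centred V φ g z₀) : Fails g V hV.mem := by
  have key := modif_not_proper V hV.mem φ hφ hg0 hne hcusp hsep hV.centre hV.arch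
  refine ⟨key, fun hP => ?_⟩
  have hinj : Function.Injective (algebraMap A F) := IsFractionRing.injective A F
  have hφg : φ g = 0 := by
    have : g ∈ RingHom.ker φ := by
      rw [hφ]; exact Ideal.mem_span_singleton_self g
    exact this
  have hnc : NonConst ℂ (algebraMap A (modif g V hV.mem) g) := by
    intro a ha
    have h2 : algebraMap A F g = algebraMap A F (algebraMap ℂ A a) := by
      rw [← IsScalarTower.algebraMap_apply ℂ A F]
      exact congrArg Subtype.val ha
    have h3 := hinj h2
    have h4 := hφg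
    rw [h3, AlgHom.commutes, Polynomial.algebraMap_apply, C_eq_zero] at h4
    apply hg0
    rw [h3]
    have h5 : a = 0 := h4
    rw [h5, map_zero]
  obtain ⟨q, hq⟩ := hP _ hnc
  exact key g q hq

end

section

variable {ι : Type} [Fintype ι] [DecidableEq ι] (S : Seif ι)

/-- The ring `S.ring`, the coordinate ring of the cone given by the data. -/
def Seif.Cone : Type := S.ring

noncomputable instance : CommRing S.Cone := Subalgebra.toCommRing S.ring

noncomputable instance : Algebra ℂ S.Cone := Subalgebra.algebra S.ring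

theorem Seif.isDomain : IsDomain S.Cone := inferInstanceAs (IsDomain S.ring)

/-- The inclusion of the ring in `ℂ[s][T]`. -/
def Seif.incl (f : S.Cone) : ℂ[X][X] := Subtype.val (p := fun f => f ∈ S.ring) f

theorem Seif.res_mul (f h : S.Cone) :
    S.phiFun (S.incl (f * h)) = S.phiFun (S.incl f) * S.phiFun (S.incl h) := S.phiFun_mul f h

theorem Seif.res_add (f h : S.Cone) :
    S.phiFun (S.incl (f + h)) = S.phiFun (S.incl f) + S.phiFun (S.incl h) := S.phiFun_add _ _

theorem Seif.res_C (r : ℂ) : S.phiFun (S.incl (algebraMap ℂ S.Cone r)) = C r := S.phiFun_C r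

/-- The restriction of functions to the curve over the distinguished point, which is
parametrised by the line. -/
noncomputable def Seif.resHom : S.Cone →+* ℂ[X] where
  toFun f := S.phiFun (S.incl f)
  map_one' := S.phiFun_one
  map_mul' := S.res_mul
  map_zero' := S.phiFun_zero
  map_add' := S.res_add

/-- The restriction of functions to the curve over the distinguished point, which is
parametrised by the line. -/
noncomputable def Seif.res : S.Cone →ₐ[ℂ] ℂ[X] := AlgHom.mk S.resHom S.res_C

theorem Seif.isIntegrallyClosed' : IsIntegrallyClosed S.Cone := S.isIntegrallyClosed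

theorem Seif.ker_res : ∃ g : S.Cone, g ≠ 0 ∧ RingHom.ker S.res = Ideal.span {g} :=
  ⟨(⟨S.gen, S.gen_mem⟩ : S.ring), fun h => S.gen_ne_zero (congrArg Subtype.val h), S.ker_phi⟩

theorem Seif.cusp_res : Cusp S.res 0 := S.cusp

theorem Seif.sep_res {z₀ : ℂ} (hz₀ : z₀ ≠ 0) : Separates S.res z₀ := S.sep hz₀

variable {F : Type} [Field F] [Algebra ℂ[X][X] F]

noncomputable instance : Algebra S.Cone F := Subalgebra.toAlgebra S.ring

theorem Seif.isFractionRing' [IsFractionRing ℂ[X][X] F] : IsFractionRing S.Cone F :=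
  S.isFractionRing F

instance [Algebra ℂ F] [IsScalarTower ℂ ℂ[X][X] F] : IsScalarTower ℂ S.Cone F :=
  inferInstanceAs (IsScalarTower ℂ S.ring F)

/-- the Seifert cones -/
theorem Seif.fails [IsFractionRing ℂ[X][X] F] [Algebra ℂ F] [IsScalarTower ℂ ℂ[X][X] F]
    {g : S.Cone} (hg0 : g ≠ 0) (hg : RingHom.ker S.res = Ideal.span {g}) {z₀ : ℂ}
    (hz₀ : z₀ ≠ 0) (V : ValuationSubring F) (hV : Centred V S.res g z₀) : Fails g V hV.mem := by
  have h1 := S.isFractionRing' (F := F)
  have h2 := S.isIntegrallyClosed'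
  have h3 := S.isDomain
  exact modif_fails S.res hg hg0 hz₀ S.cusp_res (S.sep_res hz₀) V hV

end

end Pool.Agent.H81.SC
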