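import Pool.Agent.H81.SC.Frac

namespace Pool.Agent.H81.SC

open Polynomial

namespace Seif

variable {ι : Type} [Fintype ι] [DecidableEq ι] (S : Seif ι)

theorem dvd_w {i j : ι} (h : j ≠ i) : S.m j ∣ S.w i :=
  Finset.dvd_prod_of_mem S.m (Finset.mem_erase.mpr ⟨h, Finset.mem_univ j⟩)

theorem dvd_key (i : ι) : S.m i ∣ S.b i * S.w i + 1 := by
  have h1 := S.deg'
  rw [S.prod_eq i, ← Finset.add_sum_erase Finset.univ _ (Finset.mem_univ i)] at h1
  have h2 : S.m i ∣ ∑ j ∈ Finset.univ.erase i, S.b j * S.w j := by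
    apply Finset.dvd_sum
    intro j hj
    exact Dvd.dvd.mul_left (S.dvd_w (Finset.ne_of_mem_erase hj).symm) _
  have h3 : S.m i ∣ (S.b i * S.w i + 1) + ∑ j ∈ Finset.univ.erase i, S.b j * S.w j :=
    ⟨S.e * S.w i, by linarith⟩
  exact (Nat.dvd_add_left h2).mp h3

theorem coprime (i : ι) : Nat.Coprime (S.m i) (S.b i) := by
  have h1 : Nat.gcd (S.m i) (S.b i) ∣ S.b i * S.w i + 1 :=
    (Nat.gcd_dvd_left _ _).trans (S.dvd_key i)
  have h2 : Nat.gcd (S.m i) (S.b i) ∣ S.b i * S.w i := Dvd.dvd.mul_right (Nat.gcd_dvd_right _ _) _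
  exact Nat.dvd_one.mp ((Nat.dvd_add_right h2).mp h1)

/-- The coefficients of the restriction to the curve: the value at the distinguished point of
`f_d / (s - p) ^ (d * b / m)`, where `d = m * k`. -/
noncomputable def lam (f : ℂ[X][X]) (k : ℕ) : ℂ :=
  (taylor (S.p S.o) (f.coeff (S.m S.o * k))).coeff (S.b S.o * k)

noncomputable def phiFun (f : ℂ[X][X]) : ℂ[X] :=
  ∑ k ∈ Finset.range (f.natDegree + 1), monomial k (S.lam f k)

theorem coeff_phiFun (f : ℂ[X][X]) (k : ℕ) : (S.phiFun f).coeff k = S.lam f k := by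
  rw [phiFun, finsetSum_coeff]
  simp only [coeff_monomial]
  rw [Finset.sum_ite_eq']
  split_ifs with h
  · rfl
  · rw [Finset.mem_range, not_lt] at h
    have h1 : f.natDegree < S.m S.o * k :=
      lt_of_lt_of_le h (Nat.le_mul_of_pos_left _ (S.m_pos _))
    rw [lam, coeff_eq_zero_of_natDegree_lt h1, map_zero, coeff_zero]

theorem taylor_pi (p : ℂ) (k : ℕ) : taylor p ((X - C p) ^ k) = X ^ k := by
  rw [taylor_pow, map_sub, taylor_X, taylor_C, add_sub_cancel_right]

theorem tay_zero {f : ℂ[X][X]} (hf : f ∈ S.ring) {d n : ℕ}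
    (h : S.m S.o * n < d * S.b S.o) : (taylor (S.p S.o) (f.coeff d)).coeff n = 0 := by
  obtain ⟨v, hv⟩ := (hf d).2 S.o
  rw [hv, taylor_mul, taylor_pi]
  have h1 : (X : ℂ[X]) ^ S.ex S.o d ∣ X ^ S.ex S.o d * taylor (S.p S.o) v := Dvd.intro _ rfl
  rw [X_pow_dvd_iff] at h1
  apply h1
  by_contra hcon
  rw [not_lt, ex_le_iff] at hcon
  omega

theorem lam_mul {f h : ℂ[X][X]} (hf : f ∈ S.ring) (hh : h ∈ S.ring) (k : ℕ) :
    S.lam (f * h) k = ∑ x ∈ Finset.HasAntidiagonal.antidiagonal k, S.lam f x.1 * S.lam h x.2 := by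
  have hm := S.m_pos S.o
  rw [lam, coeff_mul, map_sum, finsetSum_coeff]
  simp only [taylor_mul, coeff_mul]
  rw [← Finset.sum_product']
  symm
  apply Finset.sum_of_injOn
    (fun x : ℕ × ℕ => ((S.m S.o * x.1, S.m S.o * x.2), (S.b S.o * x.1, S.b S.o * x.2)))
  · intro x _ y _ hxy
    simp only [Prod.mk.injEq] at hxy
    exact Prod.ext (Nat.eq_of_mul_eq_mul_left hm hxy.1.1) (Nat.eq_of_mul_eq_mul_left hm hxy.1.2)
  · intro x hx
    rw [Finset.mem_coe, Finset.HasAntidiagonal.mem_antidiagonal] at hx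
    rw [Finset.mem_coe, Finset.mem_product, Finset.HasAntidiagonal.mem_antidiagonal,
      Finset.HasAntidiagonal.mem_antidiagonal]
    simp only
    rw [← mul_add, ← mul_add, hx]
    exact ⟨rfl, rfl⟩
  · rintro ⟨⟨a, c⟩, ⟨i, j⟩⟩ hx hnot
    rw [Finset.mem_product, Finset.HasAntidiagonal.mem_antidiagonal,
      Finset.HasAntidiagonal.mem_antidiagonal] at hx
    obtain ⟨h1, h2⟩ := hx
    simp only at h1 h2
    by_contra hne
    have h3 : a * S.b S.o ≤ S.m S.o * i := by
      by_contra hcon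
      apply hne
      simp only
      rw [S.tay_zero hf (not_le.mp hcon), zero_mul]
    have h4 : c * S.b S.o ≤ S.m S.o * j := by
      by_contra hcon
      apply hne
      simp only
      rw [S.tay_zero hh (not_le.mp hcon), mul_zero]
    have h5 : S.m S.o * i + S.m S.o * j = a * S.b S.o + c * S.b S.o := by
      rw [← mul_add, h2, ← add_mul, h1]; ring
    have h6 : S.m S.o * i = a * S.b S.o := by omega
    have h7 : S.m S.o * j = c * S.b S.o := by omega
    have h8 : S.m S.o ∣ a := (S.coprime S.o).dvd_of_dvd_mul_right ⟨i, h6.symm⟩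
    have h9 : S.m S.o ∣ c := (S.coprime S.o).dvd_of_dvd_mul_right ⟨j, h7.symm⟩
    obtain ⟨k1, rfl⟩ := h8
    obtain ⟨k2, rfl⟩ := h9
    apply hnot
    refine ⟨(k1, k2), ?_, ?_⟩
    · rw [Finset.mem_coe, Finset.HasAntidiagonal.mem_antidiagonal]
      rw [← mul_add] at h1
      exact Nat.eq_of_mul_eq_mul_left hm h1
    · simp only [Prod.mk.injEq, true_and]
      constructor
      · apply Nat.eq_of_mul_eq_mul_left hm
        rw [h6]; ring
      · apply Nat.eq_of_mul_eq_mul_left hm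
        rw [h7]; ring
  · rintro ⟨k1, k2⟩ _
    rfl

theorem lam_C (r : ℂ) (k : ℕ) : S.lam (C (C r)) k = (C r : ℂ[X]).coeff k := by
  rw [lam, coeff_C, coeff_C]
  by_cases hk : k = 0
  · subst hk
    rw [mul_zero, mul_zero, if_pos rfl, if_pos rfl, taylor_C, coeff_C_zero]
  · have h1 : S.m S.o * k ≠ 0 := mul_ne_zero (S.m_pos _).ne' hk
    rw [if_neg h1, if_neg hk, map_zero, coeff_zero]

theorem phiFun_C (r : ℂ) : S.phiFun (C (C r)) = C r := by
  ext k
  rw [coeff_phiFun]
  exact S.lam_C r k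

theorem phiFun_one : S.phiFun 1 = 1 := by
  rw [← C_1, ← C_1, S.phiFun_C]

theorem phiFun_zero : S.phiFun 0 = 0 := by
  rw [← C_0, ← C_0, S.phiFun_C]

theorem phiFun_mul (f h : S.ring) : S.phiFun (f * h : ℂ[X][X]) = S.phiFun f * S.phiFun h := by
  ext k
  rw [coeff_phiFun, coeff_mul]
  simp only [coeff_phiFun]
  exact S.lam_mul f.2 h.2 k

theorem phiFun_add (f h : ℂ[X][X]) : S.phiFun (f + h) = S.phiFun f + S.phiFun h := by
  ext k
  rw [coeff_add, coeff_phiFun, coeff_phiFun, coeff_phiFun, lam, coeff_add, map_add, coeff_add]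
  rfl

/-- The restriction of functions to the curve over the distinguished point, which is
parametrised by the line. -/
noncomputable def phi : S.ring →ₐ[ℂ] ℂ[X] where
  toFun f := S.phiFun f
  map_one' := S.phiFun_one
  map_mul' := S.phiFun_mul
  map_zero' := S.phiFun_zero
  map_add' f h := S.phiFun_add f h
  commutes' := S.phiFun_C

theorem coeff_phi (f : S.ring) (k : ℕ) : (S.phi f).coeff k = S.lam f k := S.coeff_phiFun f k

end Seif

end Pool.Agent.H81.SC
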