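import Pool.Agent.H81.SC.Ker

namespace Pool.Agent.H81.SC

open Polynomial

namespace Seif

variable {ι : Type} [Fintype ι] [DecidableEq ι] (S : Seif ι)

theorem not_dvd {i : ι} (hi : i ≠ S.o) : ¬ S.m i ∣ S.m S.o * S.b i := by
  intro h
  have h1 : S.m S.o ∣ S.w i := S.dvd_w (fun h => hi h.symm)
  obtain ⟨c, hc⟩ := h1
  have h2 : S.m i ∣ S.b i * S.w i := by
    rw [hc, show S.b i * (S.m S.o * c) = S.m S.o * S.b i * c by ring]
    exact Dvd.dvd.mul_right h c
  have h3 := (Nat.dvd_add_right h2).mp (S.dvd_key i)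
  have h4 := S.two_le i hi
  rw [Nat.dvd_one] at h3
  omega

theorem two_mul_le : ∃ i, i ≠ S.o ∧ 2 * S.m S.o ≤ S.w i := by
  have hcard : 1 < (Finset.univ.erase S.o : Finset ι).card := by
    rw [Finset.card_erase_of_mem (Finset.mem_univ _), Finset.card_univ]
    have := S.card
    omega
  obtain ⟨i, hi, j, hj, hij⟩ := Finset.one_lt_card.mp hcard
  have hi' := Finset.ne_of_mem_erase hi
  have hj' := Finset.ne_of_mem_erase hj
  refine ⟨i, hi', ?_⟩
  have h1 : ({S.o, j} : Finset ι) ⊆ Finset.univ.erase i := by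
    intro x hx
    rw [Finset.mem_insert, Finset.mem_singleton] at hx
    rw [Finset.mem_erase]
    rcases hx with rfl | rfl
    · exact ⟨hi'.symm, Finset.mem_univ _⟩
    · exact ⟨hij.symm, Finset.mem_univ _⟩
  have h2 := Finset.prod_dvd_prod_of_subset _ _ S.m h1
  rw [Finset.prod_pair hj'.symm] at h2
  have h3 := Nat.le_of_dvd (S.w_pos i) h2
  have h4 := S.two_le j hj'
  nlinarith

theorem coeff_one_zero {f : ℂ[X][X]} (hf : f ∈ S.ring) : f.coeff (S.m S.o) = 0 := by
  by_contra hne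
  have h1 := S.sum_le hne (hf _).1 (fun i => S.ex i (S.m S.o)) (fun i => (hf _).2 i)
  obtain ⟨i₀, hi₀, h2⟩ := S.two_mul_le
  have h3 : ∀ i, S.w i * (S.m S.o * S.b i) + (if i = i₀ then S.w i₀ else 0) ≤
      S.w i * (S.m i * S.ex i (S.m S.o)) := by
    intro i
    have h4 := S.le_ex i (S.m S.o)
    split_ifs with h
    · subst h
      have h5 : S.m S.o * S.b i ≠ S.m i * S.ex i (S.m S.o) := by
        intro h6
        exact S.not_dvd hi₀ ⟨_, h6⟩
      have h6 : S.m S.o * S.b i + 1 ≤ S.m i * S.ex i (S.m S.o) := by omega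
      calc S.w i * (S.m S.o * S.b i) + S.w i = S.w i * (S.m S.o * S.b i + 1) := by ring
        _ ≤ _ := Nat.mul_le_mul_left _ h6
    · rw [add_zero]
      exact Nat.mul_le_mul_left _ h4
  have h4 := Finset.sum_le_sum (s := Finset.univ) (fun i _ => h3 i)
  rw [Finset.sum_add_distrib, Finset.sum_ite_eq' Finset.univ i₀, if_pos (Finset.mem_univ _)] at h4
  have h5 : ∑ i, S.w i * (S.m S.o * S.b i) = S.m S.o * ∑ i, S.b i * S.w i := by
    rw [Finset.mul_sum]
    apply Finset.sum_congr rfl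
    intro i _
    ring
  rw [h5] at h4
  have h6 := S.m_pos S.o
  have h7 := h4.trans h1
  rw [mul_add, mul_one] at h7
  omega

/-- the curve has a cusp at the origin -/
theorem cusp (f : S.ring) : (derivative (S.phi f)).eval 0 = 0 := by
  rw [← coeff_zero_eq_eval_zero, coeff_derivative, zero_add, S.coeff_phi, lam, mul_one,
    S.coeff_one_zero f.2, map_zero, coeff_zero, zero_mul]

/-- a homogeneous function that vanishes on the curve only at the origin -/
theorem exists_hom {k : ℕ} (hk : (∏ j, S.m j) * Fintype.card ι ≤ k) :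
    ∃ f : S.ring, ∃ c : ℂ, c ≠ 0 ∧ S.phi f = C c * X ^ k := by
  have hm := S.m_pos S.o
  have hd : (∏ j, S.m j) * Fintype.card ι ≤ S.m S.o * k :=
    hk.trans (Nat.le_mul_of_pos_left _ hm)
  have h1 : ∑ i, S.ex i (S.m S.o * k) ≤ S.m S.o * k * S.e := by
    have h2 := S.sum_ex (S.m S.o * k)
    apply Nat.le_of_mul_le_mul_left _ S.prod_pos
    rw [mul_comm (∏ j, S.m j) (S.m S.o * k * S.e)]
    omega
  have hmem : (monomial (S.m S.o * k) (∏ i, (X - C (S.p i)) ^ S.ex i (S.m S.o * k)) : ℂ[X][X]) ∈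
      S.ring := by
    apply S.mono_mem
    · rw [S.natDegree_prod_pow]; exact h1
    · intro i
      exact Finset.dvd_prod_of_mem (fun j => (X - C (S.p j)) ^ S.ex j (S.m S.o * k))
        (Finset.mem_univ i)
  set v : ℂ[X] := ∏ i ∈ Finset.univ.erase S.o, (X - C (S.p i)) ^ S.ex i (S.m S.o * k) with hv
  have hex : S.ex S.o (S.m S.o * k) = S.b S.o * k := by
    apply le_antisymm
    · rw [ex_le_iff]
      exact le_of_eq (by ring)
    · apply Nat.le_of_mul_le_mul_left _ hm
      refine le_trans (le_of_eq (by ring)) (S.le_ex S.o (S.m S.o * k))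
  refine ⟨⟨_, hmem⟩, v.eval (S.p S.o), ?_, ?_⟩
  · rw [hv, eval_prod]
    apply Finset.prod_ne_zero_iff.mpr
    intro i hi
    rw [eval_pow, eval_sub, eval_X, eval_C]
    apply pow_ne_zero
    rw [sub_ne_zero]
    exact fun h => (Finset.ne_of_mem_erase hi) (S.inj h).symm
  · ext n
    rw [S.coeff_phi, coeff_C_mul_X_pow, lam]
    change (taylor _ ((monomial (S.m S.o * k) _ : ℂ[X][X]).coeff _)).coeff _ = _
    rw [coeff_monomial]
    by_cases hn : n = k
    · subst hn
      rw [if_pos rfl, if_pos rfl, ← Finset.mul_prod_erase Finset.univ _ (Finset.mem_univ S.o),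
        taylor_mul, taylor_pi, hex]
      have h5 : (X ^ (S.b S.o * n) * taylor (S.p S.o) v).coeff (0 + S.b S.o * n) =
        (taylor (S.p S.o) v).coeff 0 := coeff_X_pow_mul _ _ _
      rw [zero_add, taylor_coeff_zero] at h5
      exact h5
    · rw [if_neg hn, if_neg, map_zero, coeff_zero]
      intro h
      exact hn (Nat.eq_of_mul_eq_mul_left hm h).symm

/-- the curve has no self-intersections away from the origin -/
theorem sep {z₀ : ℂ} (hz₀ : z₀ ≠ 0) (z : ℂ) (hz : z ≠ z₀) :
    ∃ a : S.ring, (S.phi a).eval z ≠ (S.phi a).eval z₀ := by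
  by_contra hcon
  push Not at hcon
  set k := (∏ j, S.m j) * Fintype.card ι with hk
  obtain ⟨f, c, hc, hf⟩ := S.exists_hom (le_refl k)
  obtain ⟨f', c', hc', hf'⟩ := S.exists_hom (Nat.le_succ k)
  have h1 := hcon f
  have h2 := hcon f'
  rw [hf, eval_mul, eval_mul, eval_C, eval_C, eval_pow, eval_pow, eval_X, eval_X] at h1
  rw [hf', eval_mul, eval_mul, eval_C, eval_C, eval_pow, eval_pow, eval_X, eval_X] at h2
  have h3 := mul_left_cancel₀ hc h1
  have h4 := mul_left_cancel₀ hc' h2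
  rw [Nat.succ_eq_add_one, pow_succ, pow_succ, h3] at h4
  exact hz (mul_left_cancel₀ (pow_ne_zero _ hz₀) h4)

end Seif

end Pool.Agent.H81.SC
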